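import Mathlib
import Pool.Agent.W621.Spiral

/-!
Pseudo-instability of points is not a local property.

Let `D` be the compact monoid consisting of the closed unit disc and a ray `(r, e^{i log r})`,
`0 < r ≤ 1`, spiralling to its boundary; its identity is the end of the ray and its zero is the
centre of the disc; no path joins them. Let `Q` be the ordinal sum of countably many copies of `D`
(the zero of the `(n+1)`st copy is the identity of the `n`th copy) with a point `1` at infinity, the
identity of `Q`. Then `Q` is a compact connected monoid in which `zc = 1` only if `c = 1`, and each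
path in `Q` through `1` is constant. Let `X = [0,1] × Q` and `Y = [0,1] × Q ∪ [1,2] × {1}`. The point
`(1/2, 1)` is `Q_1`-unstable in `X` by the map `((t,q),c) ↦ (t,qc)`; in `Y` the arc `[0,2] × {1}` can
only be moved in itself by small motions, so `(1/2, 1)` is not pseudo-unstable in `Y`.
-/

set_option autoImplicit false

open Set Topology

namespace Pool.Agent.Results.MP_a217de_gt.NotLocal

/-- The point `p` of `M` is `C_a`-unstable in `M`. -/
def UnstableVia {M : Type} [TopologicalSpace M] (C : Type) [TopologicalSpace C] (a : C) (p : M) :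
    Prop :=
  ∃ F : M × C → M, Continuous F ∧ (∀ z : M, F (z, a) = z) ∧
    ∀ (z : M) (c : C), c ≠ a → F (z, c) ≠ p

/-- The point `p` of `M` is pseudo-unstable in `M`: it is `C_a`-unstable in `M` for some
nondegenerate continuum `C` and some `a : C`. -/
def PseudoUnstable {M : Type} [TopologicalSpace M] (p : M) : Prop :=
  ∃ (C : Type) (_ : MetricSpace C), CompactSpace C ∧ ConnectedSpace C ∧ Nontrivial C ∧
    ∃ a : C, UnstableVia C a p

/-- There are continua `X` and `Y`, points `x` and `y`, and a homeomorphism between a neighbourhood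
of `x` and a neighbourhood of `y` sending `x` to `y`, such that `x` is pseudo-unstable in `X` and `y`
is not pseudo-unstable in `Y`. -/
theorem result : ∃ (X Y : Type) (_ : MetricSpace X) (_ : MetricSpace Y),
    CompactSpace X ∧ ConnectedSpace X ∧ CompactSpace Y ∧ ConnectedSpace Y ∧
    ∃ (x : X) (y : Y) (U : Set X) (V : Set Y) (hU : U ∈ 𝓝 x) (_ : V ∈ 𝓝 y) (h : U ≃ₜ V),
      (h ⟨x, mem_of_mem_nhds hU⟩ : Y) = y ∧ PseudoUnstable x ∧ ¬ PseudoUnstable y := by
  let mX : MetricSpace Pool.Agent.W621.Spiral.X :=
    TopologicalSpace.metrizableSpaceMetric Pool.Agent.W621.Spiral.X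
  let mY : MetricSpace Pool.Agent.W621.Spiral.Y :=
    TopologicalSpace.metrizableSpaceMetric Pool.Agent.W621.Spiral.Y
  let mQ : MetricSpace ↥Pool.Agent.W621.Spiral.Q :=
    TopologicalSpace.metrizableSpaceMetric ↥Pool.Agent.W621.Spiral.Q
  refine ⟨Pool.Agent.W621.Spiral.X, Pool.Agent.W621.Spiral.Y, mX, mY, inferInstance, inferInstance,
    inferInstance, inferInstance, Pool.Agent.W621.Spiral.x0, Pool.Agent.W621.Spiral.y0, _, _,
    ?_, ?_, Pool.Agent.W621.Spiral.loc, rfl, ?_, ?_⟩
  · refine (isOpen_lt (continuous_fst.comp continuous_subtype_val) continuous_const).mem_nhds ?_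
    show (1 / 2 : ℝ) < 1
    norm_num
  · refine (isOpen_lt (continuous_fst.comp continuous_subtype_val) continuous_const).mem_nhds ?_
    show (1 / 2 : ℝ) < 1
    norm_num
  · refine ⟨↥Pool.Agent.W621.Spiral.Q, mQ, isCompact_iff_compactSpace.1
      Pool.Agent.W621.Spiral.isCompact_Q, isConnected_iff_connectedSpace.1
      Pool.Agent.W621.Spiral.isConnected_Q, Pool.Agent.W621.Spiral.nontrivial_Q,
      ⟨1, Pool.Agent.W621.Spiral.one_mem_Q⟩, Pool.Agent.W621.Spiral.F,
      Pool.Agent.W621.Spiral.continuous_F, Pool.Agent.W621.Spiral.F_one,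
      Pool.Agent.W621.Spiral.F_ne⟩
  · rintro ⟨C, _, hC1, hC2, hC3, a, G, hG, hGa, hGne⟩
    obtain ⟨z, c, hc, h⟩ := Pool.Agent.W621.Spiral.hits a G hG hGa
    exact hGne z c hc h

end Pool.Agent.Results.MP_a217de_gt.NotLocal
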